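import Pool.Agent.H453.CM.Hyp
import Pool.Graph.R_seed8.Q19.SU.Gen

/-!
# Groups acting on a group with torsion of rank two
-/

set_option autoImplicit false

namespace Pool.Agent.H453.CM

open Matrix
open Pool.Agent.Q19.SU.Gen (Bas)

/-- the action looks like the action on the points of a curve with complex multiplication, modulo `m` -/
def LC {G : Type*} {V : Type*} [AddCommGroup V] (ρ : G → V →+ V) (m : ℕ) : Prop :=
  ∃ φ : AddSubgroup.torsionBy V (m : ℤ) →+ V,
    (∀ l : ℕ, l.Prime → l ∣ m → ∃ P : AddSubgroup.torsionBy V (m : ℤ), l • P = 0 ∧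
      ∀ a : ℤ, φ P ≠ a • (P : V)) ∧
    ∀ g : G, ∃ a b : ℤ, ∀ P Q : AddSubgroup.torsionBy V (m : ℤ), (Q : V) = ρ g P →
      ρ g (φ P) = a • (Q : V) + b • φ Q

section coords
variable {V : Type*} [AddCommGroup V] {q : ℕ} {P Q : V}

/-- the homomorphism of the multiples -/
noncomputable def ml (q : ℕ) (P : V) (hP : (q : ℤ) • P = 0) : ZMod q →+ V :=
  ZMod.lift q ⟨zmultiplesHom V P, by simpa using hP⟩

theorem ml_int (hP : (q : ℤ) • P = 0) (a : ℤ) : ml q P hP (a : ZMod q) = a • P := by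
  unfold ml
  rw [ZMod.lift_coe]
  rfl

/-- the coordinates -/
noncomputable def co (B : Bas q P Q) : (Fin 2 → ZMod q) →+ V where
  toFun v := ml q P B.hP (v 0) + ml q Q B.hQ (v 1)
  map_zero' := by simp
  map_add' v w := by simp only [Pi.add_apply, map_add]; abel

theorem co_int (B : Bas q P Q) (a b : ℤ) : co B ![(a : ZMod q), (b : ZMod q)] = a • P + b • Q := by
  show ml q P B.hP _ + ml q Q B.hQ _ = _
  simp [ml_int]

theorem exists_int (v : Fin 2 → ZMod q) : ∃ a b : ℤ, v = ![(a : ZMod q), (b : ZMod q)] := by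
  obtain ⟨a, ha⟩ := ZMod.intCast_surjective (v 0)
  obtain ⟨b, hb⟩ := ZMod.intCast_surjective (v 1)
  refine ⟨a, b, ?_⟩
  ext i
  fin_cases i
  · simp [ha]
  · simp [hb]

theorem co_inj (B : Bas q P Q) : Function.Injective (co B) := by
  rw [injective_iff_map_eq_zero]
  intro v hv
  obtain ⟨a, b, rfl⟩ := exists_int v
  rw [co_int] at hv
  obtain ⟨h1, h2⟩ := B.ind a b hv
  ext i
  fin_cases i
  · simpa using (ZMod.intCast_zmod_eq_zero_iff_dvd a q).2 h1
  · simpa using (ZMod.intCast_zmod_eq_zero_iff_dvd b q).2 h2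

theorem co_surj (B : Bas q P Q) {R : V} (hR : (q : ℤ) • R = 0) : ∃ v, co B v = R := by
  obtain ⟨a, b, h⟩ := B.span R hR
  exact ⟨_, (co_int B a b).trans h.symm⟩

theorem co_smul (B : Bas q P Q) (a : ℤ) (v : Fin 2 → ZMod q) :
    co B ((a : ZMod q) • v) = a • co B v := by
  rw [← map_zsmul]
  congr 1
  ext i
  simp

theorem co_tors (B : Bas q P Q) (v : Fin 2 → ZMod q) : (q : ℤ) • co B v = 0 := by
  rw [← co_smul]
  simp

/-- the matrix of an endomorphism -/
noncomputable def mat (B : Bas q P Q) (f : V →+ V) : Matrix (Fin 2) (Fin 2) (ZMod q) :=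
  Matrix.of fun i j => (co_surj B (R := f (co B (Pi.single j 1))) (by
    rw [← map_zsmul, co_tors, map_zero])).choose i

theorem mat_spec (B : Bas q P Q) (f : V →+ V) (v : Fin 2 → ZMod q) :
    co B (mat B f *ᵥ v) = f (co B v) := by
  have h0 : ∀ j, co B (fun i => mat B f i j) = f (co B (Pi.single j 1)) := fun j =>
    (co_surj B (R := f (co B (Pi.single j 1))) (by
      rw [← map_zsmul, co_tors, map_zero])).choose_spec
  obtain ⟨a, b, hv⟩ := exists_int v
  have e1 : v = (a : ZMod q) • (Pi.single 0 1 : Fin 2 → ZMod q) +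
      (b : ZMod q) • (Pi.single 1 1 : Fin 2 → ZMod q) := by
    rw [hv]
    ext i
    fin_cases i <;> simp
  have e2 : mat B f *ᵥ v = (a : ZMod q) • (fun i => mat B f i 0) +
      (b : ZMod q) • (fun i => mat B f i 1) := by
    rw [hv]
    ext i
    simp [Matrix.mulVec, dotProduct, Fin.sum_univ_two, mul_comm]
  rw [e2, map_add, co_smul, co_smul, h0, h0, e1, map_add, co_smul, co_smul, map_add, map_zsmul,
    map_zsmul]

theorem mat_unique (B : Bas q P Q) (f : V →+ V) (x : Matrix (Fin 2) (Fin 2) (ZMod q))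
    (h : ∀ v, co B (x *ᵥ v) = f (co B v)) : mat B f = x := by
  apply Matrix.ext_of_mulVec_single
  intro i
  apply co_inj B
  rw [h, mat_spec]

/-- the homomorphism to the matrices -/
noncomputable def mh {G : Type*} [Group G] (B : Bas q P Q) (ρ : G → V →+ V)
    (hmul : ∀ σ τ v, ρ (σ * τ) v = ρ σ (ρ τ v)) (hone : ∀ v, ρ 1 v = v) :
    G →* (Matrix (Fin 2) (Fin 2) (ZMod q))ˣ :=
  MonoidHom.toHomUnits
    { toFun := fun g => mat B (ρ g)
      map_one' := mat_unique B _ _ fun v => by rw [Matrix.one_mulVec, hone]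
      map_mul' := fun g h => mat_unique B _ _ fun v => by
        rw [← Matrix.mulVec_mulVec, mat_spec, mat_spec, hmul] }

theorem mh_spec {G : Type*} [Group G] (B : Bas q P Q) (ρ : G → V →+ V)
    (hmul : ∀ σ τ v, ρ (σ * τ) v = ρ σ (ρ τ v)) (hone : ∀ v, ρ 1 v = v) (g : G)
    (v : Fin 2 → ZMod q) :
    co B ((mh B ρ hmul hone g : Matrix (Fin 2) (Fin 2) (ZMod q)) *ᵥ v) = ρ g (co B v) :=
  mat_spec B (ρ g) v

end coords

end Pool.Agent.H453.CM
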