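import Pool.Agent.H453.CM.Act

/-!
# Prime powers and composite moduli
-/

set_option autoImplicit false

namespace Pool.Agent.H453.CM

open Matrix
open Pool.Agent.Q19.SU.Gen (Bas)

theorem zm_dvd_pow {l k : ℕ} (hl : l.Prime) {z : ZMod (l ^ (2 * k))}
    (h : (l : ZMod (l ^ (2 * k))) ^ k * z = 0) : ∃ z', z = (l : ZMod (l ^ (2 * k))) ^ k * z' := by
  have _ : NeZero (l ^ (2 * k)) := ⟨(pow_pos hl.pos _).ne'⟩
  obtain ⟨m, rfl⟩ : ∃ m : ℕ, (m : ZMod (l ^ (2 * k))) = z := ⟨z.val, ZMod.natCast_zmod_val z⟩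
  have h1 : ((l ^ k * m : ℕ) : ZMod (l ^ (2 * k))) = 0 := by push_cast; exact h
  rw [ZMod.natCast_eq_zero_iff] at h1
  have h2 : l ^ k ∣ m := by
    have h3 : l ^ (2 * k) = l ^ k * l ^ k := by rw [two_mul, pow_add]
    rw [h3] at h1
    exact Nat.dvd_of_mul_dvd_mul_left (pow_pos hl.pos k) h1
  obtain ⟨c, hc⟩ := h2
  exact ⟨c, by rw [hc]; push_cast; rfl⟩

section
variable {V : Type*} [AddCommGroup V]

/-- the endomorphism given by a matrix -/
noncomputable def en {q : ℕ} {P Q : V} (B : Bas q P Q) (x : Matrix (Fin 2) (Fin 2) (ZMod q))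
    (m : ℕ) (hm : m ∣ q) : AddSubgroup.torsionBy V (m : ℤ) →+ V :=
  (co B).comp ((Matrix.mulVecLin x).toAddMonoidHom.comp
    ((AddMonoidHom.ofInjective (co_inj B)).symm.toAddMonoidHom.comp
      ((AddSubgroup.torsionBy V (m : ℤ)).subtype.codRestrict (co B).range (fun R => by
        have h1 : (m : ℤ) • (R : V) = 0 := R.2
        have h2 : (q : ℤ) • (R : V) = 0 := by
          obtain ⟨c, rfl⟩ := hm
          rw [Nat.cast_mul, mul_comm, mul_smul, h1, smul_zero]
        exact co_surj B h2))))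

theorem en_spec {q : ℕ} {P Q : V} (B : Bas q P Q) (x : Matrix (Fin 2) (Fin 2) (ZMod q))
    (m : ℕ) (hm : m ∣ q) (R : AddSubgroup.torsionBy V (m : ℤ)) (v : Fin 2 → ZMod q)
    (hv : co B v = R) : en B x m hm R = co B (x *ᵥ v) := by
  unfold en
  simp only [AddMonoidHom.comp_apply]
  congr 1
  show x *ᵥ _ = x *ᵥ v
  congr 1
  show (AddMonoidHom.ofInjective (co_inj B)).symm _ = v
  rw [AddEquiv.symm_apply_eq]
  apply Subtype.ext
  rw [AddMonoidHom.ofInjective_apply, hv]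
  rfl

theorem lc_pow {G : Type*} [Group G] (ρ : G → V →+ V)
    (hmul : ∀ σ τ v, ρ (σ * τ) v = ρ σ (ρ τ v)) (hone : ∀ v, ρ 1 v = v)
    {l k p : ℕ} (hl : l.Prime) (hp : p.Prime) (hk : 1 ≤ k) (hlp : l ≠ p ∨ k = 1) {P Q : V}
    (B : Bas (l ^ (2 * k)) P Q) {H : Type*} [Group H] [Finite H] (r : G →* H)
    (hr : Function.Surjective r)
    (htriv : ∀ σ, r σ = 1 → ∀ v, ((l ^ (2 * k) : ℕ) : ℤ) • v = 0 → ρ σ v = v)
    (C : Subgroup H) (hC : C.Normal) (hcyc : IsCyclic C) (hidx : ∃ m, C.index = p ^ m) :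
    LC ρ (l ^ k) := by
  set μ := mh B ρ hmul hone with hμ
  have hker : r.ker ≤ μ.ker := by
    intro σ hσ
    rw [MonoidHom.mem_ker] at hσ ⊢
    apply Units.ext
    refine mat_unique B _ _ fun v => ?_
    rw [Units.val_one, Matrix.one_mulVec]
    exact (htriv σ hσ _ (co_tors B v)).symm
  set ρH : H →* (Matrix (Fin 2) (Fin 2) (ZMod (l ^ (2 * k))))ˣ :=
    r.liftOfSurjective hr ⟨μ, hker⟩ with hρH
  have hcomp : ∀ g, ρH (r g) = μ g := fun g =>
    MonoidHom.liftOfRightInverse_comp_apply _ _ _ ⟨μ, hker⟩ g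
  obtain ⟨x, hx, hconj⟩ := main_H hl hp hk hlp C hC hcyc hidx ρH
  have hdvd : l ^ k ∣ l ^ (2 * k) := pow_dvd_pow l (by omega)
  refine ⟨en B x (l ^ k) hdvd, ?_, ?_⟩
  · intro l' hl' hdvd'
    have hll : l' = l := (Nat.prime_dvd_prime_iff_eq hl' hl).1 (hl'.dvd_of_dvd_pow hdvd')
    subst hll
    by_contra hcon
    push Not at hcon
    apply hx
    -- multiples
    have key : ∀ v : Fin 2 → ZMod (l' ^ (2 * k)), ∃ a : ZMod (l' ^ (2 * k)),
        ∀ i, (l' : ZMod (l' ^ (2 * k))) ^ (2 * k - 1) * ((x *ᵥ v) i - a * v i) = 0 := by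
      intro v
      have hl0 : (l' : ℤ) • co B ((l' : ZMod (l' ^ (2 * k))) ^ (2 * k - 1) • v) = 0 := by
        rw [← co_smul, smul_smul]
        have e : ((l' : ℤ) : ZMod (l' ^ (2 * k))) * (l' : ZMod (l' ^ (2 * k))) ^ (2 * k - 1) = 0 := by
          have : 2 * k = (2 * k - 1) + 1 := by omega
          have h5 := zm_pow (l := l') (n := 2 * k)
          rw [Int.cast_natCast, ← pow_succ', ← this]
          exact h5
        rw [e, zero_smul, map_zero]
      have hlk : co B ((l' : ZMod (l' ^ (2 * k))) ^ (2 * k - 1) • v) ∈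
          AddSubgroup.torsionBy V ((l' ^ k : ℕ) : ℤ) := by
        show ((l' ^ k : ℕ) : ℤ) •
          co B ((l' : ZMod (l' ^ (2 * k))) ^ (2 * k - 1) • v) = 0
        have hk' : ((l' ^ k : ℕ) : ℤ) = ((l' ^ (k - 1) : ℕ) : ℤ) * (l' : ℤ) := by
          rw [← Nat.cast_mul, ← pow_succ, Nat.sub_add_cancel hk]
        rw [hk', mul_smul, hl0, smul_zero]
      obtain ⟨a, ha⟩ := hcon ⟨_, hlk⟩ (by
        apply Subtype.ext
        rw [AddSubgroup.coe_nsmul, ← natCast_zsmul]
        exact hl0)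
      rw [en_spec B x (l' ^ k) hdvd _ _ rfl, ← co_smul] at ha
      have h1 := co_inj B ha
      refine ⟨(a : ZMod _), fun i => ?_⟩
      have h2 := congrFun h1 i
      rw [Matrix.mulVec_smul] at h2
      simp only [Pi.smul_apply, smul_eq_mul] at h2
      linear_combination h2
    have hlt : 2 * k - 1 < 2 * k := by omega
    obtain ⟨a, ha⟩ := key ![1, 0]
    obtain ⟨b, hb⟩ := key ![0, 1]
    obtain ⟨c, hc⟩ := key ![1, 1]
    have h10 : (l' : ZMod (l' ^ (2 * k))) ∣ x 1 0 := by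
      refine zm_dvd hl hlt ?_
      have := ha 1
      simpa [Matrix.mulVec, dotProduct, Fin.sum_univ_two] using this
    have h01 : (l' : ZMod (l' ^ (2 * k))) ∣ x 0 1 := by
      refine zm_dvd hl hlt ?_
      have := hb 0
      simpa [Matrix.mulVec, dotProduct, Fin.sum_univ_two] using this
    refine ⟨h01, h10, ?_⟩
    have h3 : (l' : ZMod (l' ^ (2 * k))) ∣ (x 0 0 + x 0 1) - (x 1 0 + x 1 1) := by
      refine zm_dvd hl hlt ?_
      have e0 := hc 0
      have e1 := hc 1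
      simp [Matrix.mulVec, dotProduct, Fin.sum_univ_two] at e0 e1
      linear_combination e0 - e1
    obtain ⟨u, hu⟩ := h3
    obtain ⟨u', hu'⟩ := h01
    obtain ⟨u'', hu''⟩ := h10
    exact ⟨u - u' + u'', by linear_combination hu - hu' + hu''⟩
  · intro g
    obtain ⟨α, β, h⟩ := hconj (r g)
    rw [hcomp g] at h
    obtain ⟨a, ha⟩ := ZMod.intCast_surjective α
    obtain ⟨b, hb⟩ := ZMod.intCast_surjective β
    refine ⟨a, b, fun R R' hRR' => ?_⟩
    have hR : ((l ^ (2 * k) : ℕ) : ℤ) • (R : V) = 0 := by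
      have h1 : ((l ^ k : ℕ) : ℤ) • (R : V) = 0 := R.2
      rw [two_mul, pow_add, Nat.cast_mul, mul_smul, h1, smul_zero]
    obtain ⟨v, hv⟩ := co_surj B hR
    have hR' : co B ((μ g : Matrix (Fin 2) (Fin 2) (ZMod (l ^ (2 * k)))) *ᵥ v) = R' := by
      rw [hRR', ← hv]
      exact mh_spec B ρ hmul hone g v
    rw [en_spec B x _ hdvd R v hv, en_spec B x _ hdvd R' _ hR', ← mh_spec B ρ hmul hone g,
      ← hR', ← co_smul, ← co_smul, ← map_add, ha, hb]
    congr 1
    -- `v` is a multiple of `l ^ k`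
    have hv0 : (l : ZMod (l ^ (2 * k))) ^ k • v = 0 := by
      apply co_inj B
      have h1 : ((l ^ k : ℕ) : ℤ) • (R : V) = 0 := R.2
      rw [map_zero, ← h1, ← hv, ← co_smul]
      push_cast
      rfl
    have hv1 : ∀ i, ∃ z, v i = (l : ZMod (l ^ (2 * k))) ^ k * z := fun i =>
      zm_dvd_pow hl (by simpa using congrFun hv0 i)
    choose z hz using hv1
    have hvz : v = (l : ZMod (l ^ (2 * k))) ^ k • z := by
      ext i
      rw [hz i]; rfl
    have h6 := congrArg (· *ᵥ z) h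
    simp only [Matrix.zero_mulVec, Matrix.smul_mulVec, Matrix.sub_mulVec] at h6
    rw [smul_sub, ← Matrix.mulVec_smul, ← Matrix.mulVec_smul, ← hvz, sub_eq_zero] at h6
    rw [Matrix.mulVec_mulVec, h6, ← Matrix.mulVec_mulVec, Matrix.add_mulVec, Matrix.smul_mulVec,
      Matrix.smul_mulVec, Matrix.one_mulVec]

theorem lc_one {G : Type*} (ρ : G → V →+ V) : LC ρ 1 := by
  refine ⟨0, fun l hl h => absurd (Nat.dvd_one.1 h) hl.one_lt.ne', fun g => ⟨0, 0, ?_⟩⟩
  intro P Q _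
  simp

theorem lc_mul {G : Type*} (ρ : G → V →+ V) {m n : ℕ} (hmn : m.Coprime n)
    (hm : LC ρ m) (hn : LC ρ n) : LC ρ (m * n) := by
  obtain ⟨φ, h1, h2⟩ := hm
  obtain ⟨ψ, h3, h4⟩ := hn
  obtain ⟨u, v, huv⟩ := (Nat.isCoprime_iff_coprime.2 hmn : IsCoprime (m : ℤ) (n : ℤ))
  have memM : ∀ R : AddSubgroup.torsionBy V ((m * n : ℕ) : ℤ),
      (v * n) • (R : V) ∈ AddSubgroup.torsionBy V (m : ℤ) := by
    intro R
    have h : ((m * n : ℕ) : ℤ) • (R : V) = 0 := R.2
    show (m : ℤ) • ((v * n) • (R : V)) = 0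
    have e : (m : ℤ) • ((v * n) • (R : V)) = v • (((m * n : ℕ) : ℤ) • (R : V)) := by
      push_cast; module
    rw [e, h, smul_zero]
  have memN : ∀ R : AddSubgroup.torsionBy V ((m * n : ℕ) : ℤ),
      (u * m) • (R : V) ∈ AddSubgroup.torsionBy V (n : ℤ) := by
    intro R
    have h : ((m * n : ℕ) : ℤ) • (R : V) = 0 := R.2
    show (n : ℤ) • ((u * m) • (R : V)) = 0
    have e : (n : ℤ) • ((u * m) • (R : V)) = u • (((m * n : ℕ) : ℤ) • (R : V)) := by
      push_cast; module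
    rw [e, h, smul_zero]
  let fM : AddSubgroup.torsionBy V ((m * n : ℕ) : ℤ) →+ AddSubgroup.torsionBy V (m : ℤ) :=
    { toFun := fun R => ⟨(v * n) • (R : V), memM R⟩
      map_zero' := by apply Subtype.ext; simp
      map_add' := fun R R' => by apply Subtype.ext; simp }
  let fN : AddSubgroup.torsionBy V ((m * n : ℕ) : ℤ) →+ AddSubgroup.torsionBy V (n : ℤ) :=
    { toFun := fun R => ⟨(u * m) • (R : V), memN R⟩
      map_zero' := by apply Subtype.ext; simp
      map_add' := fun R R' => by apply Subtype.ext; simp }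
  have hmnM : ∀ R : V, (m : ℤ) • R = 0 → (v * n) • R = R ∧ (u * m) • R = 0 := by
    intro R hR
    have e2 : (u * m) • R = 0 := by rw [mul_smul, hR, smul_zero]
    refine ⟨?_, e2⟩
    have e3 : (u * m) • R + (v * n) • R = R := by rw [← add_smul, huv, one_smul]
    rw [e2, zero_add] at e3
    exact e3
  have hmnN : ∀ R : V, (n : ℤ) • R = 0 → (u * m) • R = R ∧ (v * n) • R = 0 := by
    intro R hR
    have e2 : (v * n) • R = 0 := by rw [mul_smul, hR, smul_zero]
    refine ⟨?_, e2⟩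
    have e3 : (u * m) • R + (v * n) • R = R := by rw [← add_smul, huv, one_smul]
    rw [e2, add_zero] at e3
    exact e3
  refine ⟨φ.comp fM + ψ.comp fN, ?_, ?_⟩
  · intro l hl hdvd
    rcases hl.dvd_mul.1 hdvd with h | h
    · obtain ⟨P, hP, hP2⟩ := h1 l hl h
      have hPm : (m : ℤ) • (P : V) = 0 := P.2
      have hmem : (P : V) ∈ AddSubgroup.torsionBy V ((m * n : ℕ) : ℤ) := by
        show ((m * n : ℕ) : ℤ) • (P : V) = 0
        rw [Nat.cast_mul, mul_comm, mul_smul, hPm, smul_zero]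
      refine ⟨⟨P, hmem⟩, ?_, fun a ha => hP2 a ?_⟩
      · apply Subtype.ext
        have := congrArg Subtype.val hP
        simpa using this
      · rw [← ha]
        have e1 : fM ⟨P, hmem⟩ = P := Subtype.ext (hmnM _ hPm).1
        have e2 : fN ⟨P, hmem⟩ = 0 := Subtype.ext (hmnM _ hPm).2
        rw [AddMonoidHom.add_apply, AddMonoidHom.comp_apply, AddMonoidHom.comp_apply, e1, e2,
          map_zero, add_zero]
    · obtain ⟨P, hP, hP2⟩ := h3 l hl h
      have hPn : (n : ℤ) • (P : V) = 0 := P.2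
      have hmem : (P : V) ∈ AddSubgroup.torsionBy V ((m * n : ℕ) : ℤ) := by
        show ((m * n : ℕ) : ℤ) • (P : V) = 0
        rw [Nat.cast_mul, mul_smul, hPn, smul_zero]
      refine ⟨⟨P, hmem⟩, ?_, fun a ha => hP2 a ?_⟩
      · apply Subtype.ext
        have := congrArg Subtype.val hP
        simpa using this
      · rw [← ha]
        have e1 : fM ⟨P, hmem⟩ = 0 := Subtype.ext (hmnN _ hPn).2
        have e2 : fN ⟨P, hmem⟩ = P := Subtype.ext (hmnN _ hPn).1
        rw [AddMonoidHom.add_apply, AddMonoidHom.comp_apply, AddMonoidHom.comp_apply, e1, e2,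
          map_zero, zero_add]
  · intro g
    obtain ⟨a, b, hab⟩ := h2 g
    obtain ⟨a', b', hab'⟩ := h4 g
    obtain ⟨x, hx1, hx2⟩ := Pool.Agent.Q19.SU.Gen.crt hmn a a'
    obtain ⟨y, hy1, hy2⟩ := Pool.Agent.Q19.SU.Gen.crt hmn b b'
    refine ⟨x, y, fun P Q hQ => ?_⟩
    have e1 := hab (fM P) (fM Q) (by
      show (v * n) • (Q : V) = ρ g ((v * n) • (P : V))
      rw [hQ, map_zsmul])
    have e2 := hab' (fN P) (fN Q) (by
      show (u * m) • (Q : V) = ρ g ((u * m) • (P : V))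
      rw [hQ, map_zsmul])
    rw [AddMonoidHom.add_apply, AddMonoidHom.comp_apply, AddMonoidHom.comp_apply, map_add, e1, e2,
      AddMonoidHom.add_apply, AddMonoidHom.comp_apply, AddMonoidHom.comp_apply]
    have k1 : a • (fM Q : V) = x • (fM Q : V) :=
      (Pool.Agent.Q19.SU.Gen.smul_congr (n := m) (fM Q).2 hx1).symm
    have k2 : a' • (fN Q : V) = x • (fN Q : V) :=
      (Pool.Agent.Q19.SU.Gen.smul_congr (n := n) (fN Q).2 hx2).symm
    have t1 : (m : ℤ) • φ (fM Q) = 0 := by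
      rw [← map_zsmul]
      have : (m : ℤ) • fM Q = 0 := Subtype.ext (fM Q).2
      rw [this, map_zero]
    have t2 : (n : ℤ) • ψ (fN Q) = 0 := by
      rw [← map_zsmul]
      have : (n : ℤ) • fN Q = 0 := Subtype.ext (fN Q).2
      rw [this, map_zero]
    have k3 : b • φ (fM Q) = y • φ (fM Q) :=
      (Pool.Agent.Q19.SU.Gen.smul_congr (n := m) t1 hy1).symm
    have k4 : b' • ψ (fN Q) = y • ψ (fN Q) :=
      (Pool.Agent.Q19.SU.Gen.smul_congr (n := n) t2 hy2).symm
    have k5 : (Q : V) = (fM Q : V) + (fN Q : V) := by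
      show (Q : V) = (v * n) • (Q : V) + (u * m) • (Q : V)
      rw [← add_smul, add_comm, huv, one_smul]
    rw [k1, k2, k3, k4]
    conv_rhs => rw [k5]
    rw [smul_add, smul_add]
    abel

/-- all moduli that are not divisible by `p ^ 2` -/
theorem lc_all {G : Type*} [Group G] (ρ : G → V →+ V)
    (hmul : ∀ σ τ v, ρ (σ * τ) v = ρ σ (ρ τ v)) (hone : ∀ v, ρ 1 v = v)
    (hbas : ∀ (l j : ℕ), l.Prime → ∃ P Q : V, Bas (l ^ j) P Q)
    {p : ℕ} (hp : p.Prime) {N : ℕ} {H : Type*} [Group H] [Finite H] (r : G →* H)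
    (hr : Function.Surjective r)
    (htriv : ∀ σ, r σ = 1 → ∀ v, ((N ^ 2 : ℕ) : ℤ) • v = 0 → ρ σ v = v)
    (C : Subgroup H) (hC : C.Normal) (hcyc : IsCyclic C) (hidx : ∃ m, C.index = p ^ m) :
    ∀ m : ℕ, m ≠ 0 → m ∣ N → ¬ p ^ 2 ∣ m → LC ρ m := by
  intro m
  induction m using Nat.recOnPrimeCoprime with
  | zero => intro h; exact absurd rfl h
  | prime_pow l k hl =>
    intro _ hmN hp2
    rcases Nat.eq_zero_or_pos k with rfl | hk
    · rw [pow_zero]; exact lc_one ρ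
    obtain ⟨P, Q, B⟩ := hbas l (2 * k) hl
    refine lc_pow ρ hmul hone hl hp hk ?_ B r hr ?_ C hC hcyc hidx
    · by_contra hcon
      push Not at hcon
      obtain ⟨rfl, hk1⟩ := hcon
      exact hp2 (pow_dvd_pow _ (by omega))
    · intro σ hσ v hv
      refine htriv σ hσ v ?_
      obtain ⟨c, hc⟩ := hmN
      have e : N ^ 2 = c ^ 2 * l ^ (2 * k) := by rw [hc, mul_pow, ← pow_mul]; ring
      rw [e, Nat.cast_mul, mul_smul, hv, smul_zero]
  | coprime a b ha hb hab iha ihb =>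
    intro hm0 hmN hp2
    exact lc_mul ρ hab
      (iha (by omega) ((Dvd.intro _ rfl).trans hmN) fun h => hp2 (h.trans (Dvd.intro _ rfl)))
      (ihb (by omega) ((Dvd.intro_left _ rfl).trans hmN)
        fun h => hp2 (h.trans (Dvd.intro_left _ rfl)))

end

end Pool.Agent.H453.CM
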