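import Pool.Graph.R_pool_sql_team_seeded_63374d34.N683.HR.Iso
import Pool.Graph.R_seed8.Y673.SL.Mu
import Pool.Agent.H453.CM.PP

/-!
# The torsion of an elliptic curve over an algebraically closed field
-/

set_option autoImplicit false

namespace Pool.Agent.H453.CM

open WeierstrassCurve Pool.Agent.H901R3.MS
open Pool.Agent.Q19.SU.Gen (Bas bas_one)

theorem bas_map {V V' : Type*} [AddCommGroup V] [AddCommGroup V'] (e : V ≃+ V') {n : ℕ} {P Q : V}
    (h : Bas n P Q) : Bas n (e P) (e Q) := by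
  refine ⟨?_, ?_, ?_, ?_⟩
  · rw [← map_zsmul, h.hP, map_zero]
  · rw [← map_zsmul, h.hQ, map_zero]
  · intro R hR
    obtain ⟨a, b, hab⟩ := h.span (e.symm R) (by rw [← map_zsmul, hR, map_zero])
    refine ⟨a, b, ?_⟩
    rw [← map_zsmul, ← map_zsmul, ← map_add, ← hab, AddEquiv.apply_symm_apply]
  · intro a b hab
    apply h.ind
    apply e.injective
    rw [map_add, map_zsmul, map_zsmul, hab, map_zero]

section
variable {F : Type} [Field F] [DecidableEq F] [IsAlgClosed F] [CharZero F]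

theorem bas_short {a b : F} (hD : Disc a b) {l : ℕ} (hl : l.Prime) (j : ℕ) :
    ∃ P Q : Pt a b, Bas (l ^ j) P Q := by
  rcases j with _ | j
  · exact ⟨0, 0, by
      refine ⟨by simp, by simp, ?_, ?_⟩
      · intro R hR
        refine ⟨0, 0, ?_⟩
        simpa using hR
      · intro a b _
        simp⟩
  have hT := Pool.Agent.Y673.SL.pln hD hl
  have hfin : ∀ n : ℕ, 1 ≤ n → {P : Pt a b | n • P = 0}.Finite ∧
      n ^ 2 ≤ {P : Pt a b | n • P = 0}.ncard := fun n hn =>
    Pool.Agent.Y673.Loc.Mul.tor F _ _ hD n hn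
  have hup := Pool.Agent.Y673.FM.tor_upper hD hl (hfin l hl.one_le).1
  have hcard : Nat.card (Pool.Agent.Y673.SL.tr a b l) = l ^ 2 := hT.card
  -- two generators
  obtain ⟨P, hP, hP0⟩ : ∃ P ∈ Pool.Agent.Y673.SL.tr a b l, P ≠ 0 := by
    by_contra hcon
    push Not at hcon
    have h1 : Pool.Agent.Y673.SL.tr a b l = ⊥ := by
      rw [eq_bot_iff]
      intro x hx
      exact hcon x hx
    rw [h1] at hcard
    have h2 : Nat.card (⊥ : AddSubgroup (Pt a b)) = 1 := Nat.card_unique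
    rw [h2] at hcard
    have : 1 < l ^ 2 := Nat.one_lt_pow two_ne_zero hl.one_lt
    omega
  obtain ⟨Q, hQ, hPQ⟩ : ∃ Q ∈ Pool.Agent.Y673.SL.tr a b l, Q ∉ AddSubgroup.zmultiples P := by
    by_contra hcon
    push Not at hcon
    have h1 : Pool.Agent.Y673.SL.tr a b l ≤ AddSubgroup.zmultiples P := hcon
    have h2 : Nat.card (AddSubgroup.zmultiples P) = l := by
      rw [Nat.card_zmultiples, hT.order hP hP0]
    have _ : Finite (AddSubgroup.zmultiples P) := Nat.finite_of_card_ne_zero (by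
      rw [h2]; exact hl.ne_zero)
    have h3 := Nat.card_le_card_of_injective _ (AddSubgroup.inclusion_injective h1)
    rw [h2, hcard] at h3
    have : l < l ^ 2 := by
      have := hl.one_lt
      nlinarith
    omega
  have B : Bas l P Q := by
    refine ⟨?_, ?_, ?_, ?_⟩
    · rw [natCast_zsmul]; exact hP
    · rw [natCast_zsmul]; exact hQ
    · intro R hR
      rw [natCast_zsmul] at hR
      exact hT.span hP hQ hP0 hPQ hR
    · exact fun a b hab => hT.indep hP hQ hP0 hPQ hab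
  obtain ⟨P', hP'⟩ := Pool.Agent.Y673.FM.div_grp hl.one_le hfin hup j hP
  obtain ⟨Q', hQ'⟩ := Pool.Agent.Y673.FM.div_grp hl.one_le hfin hup j hQ
  have e1 : ((l : ℤ) ^ j) • P' = P := by
    rw [← hP', ← Nat.cast_pow, natCast_zsmul]
  have e2 : ((l : ℤ) ^ j) • Q' = Q := by
    rw [← hQ', ← Nat.cast_pow, natCast_zsmul]
  refine ⟨P', Q', Bas.lift j ?_ ?_ ?_⟩
  · rw [pow_succ', mul_smul, e1]; exact B.hP
  · rw [pow_succ', mul_smul, e2]; exact B.hQ
  · rw [e1, e2]; exact B

theorem bas_ell (E : WeierstrassCurve F) [E.IsElliptic] {l : ℕ} (hl : l.Prime) (j : ℕ) :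
    ∃ P Q : E.toAffine.Point, Bas (l ^ j) P Q := by
  have hΔ : E.Δ ≠ 0 := by
    rw [← E.coe_Δ']
    exact E.Δ'.ne_zero
  have hD : Disc (-27 * E.c₄) (-54 * E.c₆) := by
    have hrel := E.c_relation
    have h2 : 4 * (-27 * E.c₄) ^ 3 + 27 * (-54 * E.c₆) ^ 2 = -136048896 * E.Δ := by
      linear_combination -78732 * (-hrel)
    show (2 : F) * (4 * (-27 * E.c₄) ^ 3 + 27 * (-54 * E.c₆) ^ 2) ≠ 0
    rw [h2]
    exact mul_ne_zero two_ne_zero (mul_ne_zero (by norm_num) hΔ)
  have h : Pool.Agent.N683.HR.IsShort E.toAffine (CV (-27 * E.c₄) (-54 * E.c₆)).toAffine :=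
    ⟨rfl, rfl, rfl, rfl, rfl, by norm_num, by norm_num⟩
  let f : E.toAffine.Point →+ Pt (-27 * E.c₄) (-54 * E.c₆) :=
    { toFun := Pool.Agent.N683.HR.trs h
      map_zero' := rfl
      map_add' := Pool.Agent.N683.HR.trs_add h }
  have hf : Function.Bijective f := ⟨fun P Q e => Pool.Agent.N683.HR.trs_inj h e,
    fun Q => Pool.Agent.N683.HR.trs_surj h Q⟩
  obtain ⟨P, Q, B⟩ := bas_short hD hl j
  exact ⟨_, _, bas_map (AddEquiv.ofBijective f hf).symm B⟩

end

/-- the elements killed by `n` are finite in number -/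
theorem fin_tors {V : Type*} [AddCommGroup V]
    (hbas : ∀ (l j : ℕ), l.Prime → ∃ P Q : V, Bas (l ^ j) P Q) (n : ℕ) (hn : n ≠ 0) :
    {v : V | (n : ℤ) • v = 0}.Finite := by
  obtain ⟨P, Q, B⟩ : ∃ P Q : V, Bas n P Q := by
    induction n using Nat.recOnPrimeCoprime with
    | zero => exact absurd rfl hn
    | prime_pow l k hl => exact hbas l k hl
    | coprime a b ha hb hab iha ihb =>
      obtain ⟨P, Q, B⟩ := iha (by omega)
      obtain ⟨P', Q', B'⟩ := ihb (by omega)
      exact ⟨_, _, Bas.coprime hab B B'⟩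
  have _ : NeZero n := ⟨hn⟩
  refine (Set.finite_range (co B)).subset ?_
  intro v hv
  exact co_surj B hv

end Pool.Agent.H453.CM
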