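import Pool.Graph.R_pool_sql_team_seeded_63374d34.N19.BR.Defs
import Pool.Agent.H453.CM.Tor

/-!
# The field generated by torsion points, and its Galois group
-/

set_option autoImplicit false

namespace Pool.Agent.H453.CM

open NumberField IsDedekindDomain IntermediateField WeierstrassCurve
open Pool.Agent.R433.MD (Ext)
open Pool.Agent.N19.BR.Def
open Pool.Agent.Q19.SU.Gen (Bas)
open scoped Classical

/-- extension of embeddings to algebraic closures -/
theorem exists_theta {K L Ω Ω' : Type} [Field K] [Field L] [Field Ω] [Field Ω'] [Algebra K L]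
    [Algebra K Ω] [Algebra K Ω'] [IsAlgClosed Ω] [IsAlgClosed Ω'] [Algebra.IsAlgebraic K Ω]
    [Algebra.IsAlgebraic K Ω'] (j : L →ₐ[K] Ω) (g : L →ₐ[K] Ω') :
    ∃ θ : Ω ≃ₐ[K] Ω', ∀ x, θ (j x) = g x := by
  let _ : Algebra L Ω := j.toRingHom.toAlgebra
  let _ : Algebra L Ω' := g.toRingHom.toAlgebra
  have _ : IsScalarTower K L Ω := IsScalarTower.of_algebraMap_eq fun x => (j.commutes x).symm
  have _ : IsScalarTower K L Ω' := IsScalarTower.of_algebraMap_eq fun x => (g.commutes x).symm
  have _ : Algebra.IsAlgebraic L Ω := Algebra.IsAlgebraic.tower_top (K := K) L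
  have _ : Algebra.IsAlgebraic L Ω' := Algebra.IsAlgebraic.tower_top (K := K) L
  have _ : IsAlgClosure L Ω := ⟨inferInstance, inferInstance⟩
  have _ : IsAlgClosure L Ω' := ⟨inferInstance, inferInstance⟩
  exact ⟨(IsAlgClosure.equiv L Ω Ω').restrictScalars K, fun x =>
    (IsAlgClosure.equiv L Ω Ω').commutes x⟩

/-- the coordinates of the points killed by `n` are in the image of `j` -/
def Co {K L Ω : Type} [Field K] [Field L] [Field Ω] [Algebra K L] [Algebra K Ω]
    (W : WeierstrassCurve Ω) (n : ℕ) (j : L →ₐ[K] Ω) : Prop :=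
  ∀ (x y : Ω) (h : W.toAffine.Nonsingular x y),
    (n : ℤ) • (Affine.Point.some x y h : W.toAffine.Point) = 0 → (∃ u, j u = x) ∧ ∃ u, j u = y

theorem co_transfer {K L Ω Ω' : Type} [Field K] [Field L] [Field Ω] [Field Ω'] [Algebra K L]
    [Algebra K Ω] [Algebra K Ω'] [IsAlgClosed Ω] [IsAlgClosed Ω'] [Algebra.IsAlgebraic K Ω]
    [Algebra.IsAlgebraic K Ω'] (E : WeierstrassCurve K) (n : ℕ) (j : L →ₐ[K] Ω) (g : L →ₐ[K] Ω')
    (h : Co (E.baseChange Ω) n j) (W : WeierstrassCurve Ω') (hW : W = E.baseChange Ω') :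
    Co W n g := by
  subst hW
  obtain ⟨θ, hθ⟩ := exists_theta j g
  intro x y hxy hn
  set P : (E.baseChange Ω').toAffine.Point := Affine.Point.some x y hxy with hP
  have h1 : (n : ℤ) • Affine.Point.map (W' := E) (θ.symm : Ω' →ₐ[K] Ω) P = 0 := by
    rw [← map_zsmul, hn, map_zero]
  rw [hP, Affine.Point.map_some] at h1
  obtain ⟨⟨u, hu⟩, ⟨v, hv⟩⟩ := h _ _ _ h1
  refine ⟨⟨u, ?_⟩, ⟨v, ?_⟩⟩
  · rw [← hθ, hu]
    exact θ.apply_symm_apply x
  · rw [← hθ, hv]
    exact θ.apply_symm_apply y

/-- a finite Galois extension which contains the coordinates of the points killed by `n` -/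
theorem exists_fld (K : Type) [Field K] [NumberField K] (E : WeierstrassCurve K) [E.IsElliptic]
    (L : Type) [Field L] [NumberField L] [Algebra K L] (n : ℕ) (hn : n ≠ 0) :
    ∃ (L' : IntermediateField K (AlgebraicClosure K)) (_ : FiniteDimensional K L')
      (_ : IsGalois K L'), Nonempty (L →ₐ[K] L') ∧
        Co (E.baseChange (AlgebraicClosure K)) n L'.val := by
  set Ω := AlgebraicClosure K
  have _ : CharZero Ω := charZero_of_injective_algebraMap (algebraMap K Ω).injective
  have _ : Module.Finite K L := Module.Finite.of_restrictScalars_finite ℚ K L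
  have _ : (E.baseChange Ω).IsElliptic := inferInstanceAs (E.map (algebraMap K Ω)).IsElliptic
  let i : L →ₐ[K] Ω := IsAlgClosed.lift
  let e : L ≃ₐ[K] i.fieldRange := AlgEquiv.ofInjectiveField i
  set T : Set (E.baseChange Ω).toAffine.Point := {v | (n : ℤ) • v = 0} with hT
  have hTf : T.Finite := fin_tors (fun l j hl => bas_ell (E.baseChange Ω) hl j) n hn
  -- the coordinates
  let cx : (E.baseChange Ω).toAffine.Point → Ω := fun P =>
    match P with
    | .zero => 0
    | .some x _ _ => x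
  let cy : (E.baseChange Ω).toAffine.Point → Ω := fun P =>
    match P with
    | .zero => 0
    | .some _ y _ => y
  set S : Set Ω := cx '' T ∪ cy '' T with hS
  have hSf : S.Finite := (hTf.image _).union (hTf.image _)
  have hfin : FiniteDimensional K (adjoin K S) := by
    have := hSf.to_subtype
    exact IntermediateField.finiteDimensional_adjoin fun x _ =>
      (Algebra.IsAlgebraic.isAlgebraic x).isIntegral
  have hfin2 : FiniteDimensional K i.fieldRange :=
    e.toLinearEquiv.finiteDimensional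
  have hfin3 : FiniteDimensional K ↥(i.fieldRange ⊔ adjoin K S) :=
    IntermediateField.finiteDimensional_sup _ _
  have _ : Normal K Ω := IsAlgClosure.normal K Ω
  set L' := normalClosure K ↥(i.fieldRange ⊔ adjoin K S) Ω with hL'
  have hle : i.fieldRange ⊔ adjoin K S ≤ L' := le_normalClosure _
  have hfin4 : FiniteDimensional K L' := inferInstance
  have hgal : IsGalois K L' := ⟨⟩
  refine ⟨L', hfin4, hgal, ?_, ?_⟩
  · exact ⟨(IntermediateField.inclusion (le_sup_left.trans hle)).comp (e : L →ₐ[K] i.fieldRange)⟩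
  · intro x y h h0
    have hmem : ∀ z ∈ S, ∃ u, L'.val u = z := fun z hz =>
      ⟨⟨z, hle ((le_sup_right : adjoin K S ≤ _) (subset_adjoin K S hz))⟩, rfl⟩
    exact ⟨hmem x (Or.inl ⟨_, h0, rfl⟩), hmem y (Or.inr ⟨_, h0, rfl⟩)⟩

/-- the Galois action -/
noncomputable def gal {F : Type} [Field F] (E : WeierstrassCurve F)
    (σ : AlgebraicClosure F ≃ₐ[F] AlgebraicClosure F) :
    (E.baseChange (AlgebraicClosure F)).toAffine.Point →+
      (E.baseChange (AlgebraicClosure F)).toAffine.Point :=
  Affine.Point.map (W' := E) (σ : AlgebraicClosure F →ₐ[F] AlgebraicClosure F)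

theorem gal_mul {F : Type} [Field F] (E : WeierstrassCurve F)
    (σ τ : AlgebraicClosure F ≃ₐ[F] AlgebraicClosure F)
    (v : (E.baseChange (AlgebraicClosure F)).toAffine.Point) :
    gal E (σ * τ) v = gal E σ (gal E τ v) := by
  unfold gal
  rw [Affine.Point.map_map]
  rfl

theorem gal_one {F : Type} [Field F] (E : WeierstrassCurve F)
    (v : (E.baseChange (AlgebraicClosure F)).toAffine.Point) : gal E 1 v = v := by
  unfold gal
  rcases v with _ | ⟨x, y, h⟩
  · rfl
  · rfl

/-- **The transfer.** -/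
theorem lc_of_hyper (K : Type) [Field K] [NumberField K] (E : WeierstrassCurve K) [E.IsElliptic]
    {N : ℕ} {L' : Type} [Field L'] [Algebra K L'] (j : L' →ₐ[K] AlgebraicClosure K)
    (hj : Co (E.baseChange (AlgebraicClosure K)) (N ^ 2) j) (Z : Ext K) {p : ℕ} (hp : p.Prime)
    (hZ : HyperelementaryOver p L' Z) (m : ℕ) (hm : m ≠ 0) (hmN : m ∣ N) (hpm : ¬ p ^ 2 ∣ m) :
    LC (gal (E.map (algebraMap K Z.F))) m := by
  obtain ⟨M, hgal, ⟨C, hC, hcyc, -, hidx⟩, ⟨f⟩⟩ := hZ
  set Ω' := AlgebraicClosure Z.F with hΩ'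
  have _ : CharZero Ω' := charZero_of_injective_algebraMap (algebraMap Z.F Ω').injective
  have _ : Module.Finite Z.F M.F := Module.Finite.of_restrictScalars_finite ℚ Z.F M.F
  let ι : M.F →ₐ[Z.F] Ω' := IsAlgClosed.lift
  let _ : Algebra M.F Ω' := ι.toRingHom.toAlgebra
  have _ : IsScalarTower Z.F M.F Ω' := IsScalarTower.of_algebraMap_eq fun x => (ι.commutes x).symm
  have _ : Normal Z.F Ω' := IsAlgClosure.normal Z.F Ω'
  have _ : Normal Z.F M.F := hgal.to_normal
  have hsurj := AlgEquiv.restrictNormalHom_surjective (F := Z.F) (K₁ := M.F) Ω'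
  -- the embedding over `K`
  have hf : ∀ a : K, f (algebraMap K L' a) = algebraMap Z.F M.F (algebraMap K Z.F a) := fun a =>
    f.commutes a
  let g : L' →ₐ[K] Ω' :=
    { toRingHom := ι.toRingHom.comp f.toRingHom
      commutes' := fun a => by
        show ι (f (algebraMap K L' a)) = _
        rw [hf, ι.commutes]
        exact (IsScalarTower.algebraMap_apply K Z.F Ω' a).symm }
  have _ : Algebra.IsAlgebraic K Z.F := by
    have _ : Module.Finite K Z.F := Module.Finite.of_restrictScalars_finite ℚ K Z.F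
    exact Algebra.IsAlgebraic.of_finite K Z.F
  have _ : Algebra.IsAlgebraic K Ω' := Algebra.IsAlgebraic.trans K Z.F Ω'
  have hW : (E.map (algebraMap K Z.F)).baseChange Ω' = E.baseChange Ω' := by
    rw [WeierstrassCurve.baseChange, WeierstrassCurve.baseChange, WeierstrassCurve.map_map,
      IsScalarTower.algebraMap_eq K Z.F Ω']
  have hco : Co ((E.map (algebraMap K Z.F)).baseChange Ω') (N ^ 2) g :=
    co_transfer E (N ^ 2) j g hj _ hW
  have _ : ((E.map (algebraMap K Z.F)).baseChange Ω').IsElliptic :=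
    inferInstanceAs ((E.map (algebraMap K Z.F)).map (algebraMap Z.F Ω')).IsElliptic
  refine lc_all (N := N) (p := p) (gal (E.map (algebraMap K Z.F)))
    (gal_mul _) (gal_one _) (fun l i hl => bas_ell _ hl i) hp
    (AlgEquiv.restrictNormalHom (F := Z.F) (K₁ := Ω') M.F) hsurj ?_ C hC hcyc hidx m hm hmN hpm
  intro σ hσ v hv
  have hfix : ∀ x : M.F, σ (ι x) = ι x := by
    intro x
    have h1 := AlgEquiv.restrictNormal_commutes σ M.F x
    have h2 : σ.restrictNormal M.F = 1 := hσ
    rw [h2] at h1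
    exact h1.symm
  rcases v with _ | ⟨x, y, h⟩
  · rfl
  · obtain ⟨⟨u, hu⟩, ⟨w, hw⟩⟩ := hco x y h hv
    have hx : σ x = x := by rw [← hu]; exact hfix (f u)
    have hy : σ y = y := by rw [← hw]; exact hfix (f w)
    unfold gal
    rw [Affine.Point.map_some, Affine.Point.some.injEq]
    exact ⟨hx, hy⟩

end Pool.Agent.H453.CM
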