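import Pool.Agent.H453.CM.Mat

/-!
# Two-dimensional representations of hyperelementary groups
-/

set_option autoImplicit false

namespace Pool.Agent.H453.CM

open Matrix

section zm
variable {l n : ℕ}

theorem zm_pow : ((l : ZMod (l ^ n))) ^ n = 0 := by
  have h : ((l ^ n : ℕ) : ZMod (l ^ n)) = 0 := ZMod.natCast_self _
  rwa [Nat.cast_pow] at h

theorem zm_dvd (hl : l.Prime) {a : ℕ} (ha : a < n) {z : ZMod (l ^ n)}
    (h : (l : ZMod (l ^ n)) ^ a * z = 0) : (l : ZMod (l ^ n)) ∣ z := by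
  have _ : NeZero (l ^ n) := ⟨(pow_pos hl.pos n).ne'⟩
  obtain ⟨m, rfl⟩ : ∃ m : ℕ, (m : ZMod (l ^ n)) = z := ⟨z.val, ZMod.natCast_zmod_val z⟩
  have h1 : ((l ^ a * m : ℕ) : ZMod (l ^ n)) = 0 := by push_cast; exact h
  rw [ZMod.natCast_eq_zero_iff] at h1
  obtain ⟨b, hb⟩ : ∃ b, n = a + (b + 1) := ⟨n - a - 1, by omega⟩
  have h2 : l ^ (b + 1) ∣ m := by
    have h3 : l ^ n = l ^ a * l ^ (b + 1) := by rw [hb, pow_add]
    rw [h3] at h1
    exact Nat.dvd_of_mul_dvd_mul_left (pow_pos hl.pos a) h1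
  obtain ⟨c, hc⟩ := (dvd_pow_self l (Nat.succ_ne_zero b)).trans h2
  exact ⟨c, by rw [hc]; push_cast; rfl⟩

theorem zm_nil {a : ℕ} (ha : 1 ≤ a) (z : ZMod (l ^ n)) :
    IsNilpotent ((l : ZMod (l ^ n)) ^ a * z) := by
  refine ⟨n, ?_⟩
  rw [mul_pow, ← pow_mul, mul_comm a n, pow_mul, zm_pow]
  rcases a with _ | a
  · omega
  · rw [zero_pow (Nat.succ_ne_zero a), zero_mul]

end zm

section main
variable {l k p : ℕ}

/-- scalar modulo `l ^ k` -/
def SK (l n k : ℕ) (y : Matrix (Fin 2) (Fin 2) (ZMod (l ^ n))) : Prop :=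
  ∃ s : ZMod (l ^ n), (l : ZMod (l ^ n)) ^ k • (y - s • (1 : Matrix (Fin 2) (Fin 2) (ZMod (l ^ n)))) = 0

theorem SK.one (l n k : ℕ) : SK l n k 1 := ⟨1, by simp⟩

theorem SK.mul {l n k : ℕ} {y z : Matrix (Fin 2) (Fin 2) (ZMod (l ^ n))} (hy : SK l n k y)
    (hz : SK l n k z) : SK l n k (y * z) := by
  obtain ⟨s, hs⟩ := hy
  obtain ⟨s', hs'⟩ := hz
  refine ⟨s * s', ?_⟩
  have e : y * z - (s * s') • (1 : Matrix (Fin 2) (Fin 2) (ZMod (l ^ n))) =
      (y - s • (1 : Matrix (Fin 2) (Fin 2) (ZMod (l ^ n)))) * z +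
        s • (z - s' • (1 : Matrix (Fin 2) (Fin 2) (ZMod (l ^ n)))) := by
    rw [sub_mul, smul_mul_assoc, one_mul, smul_sub, mul_smul]
    abel
  rw [e, smul_add, ← smul_mul_assoc, hs, zero_mul, smul_comm, hs', smul_zero, add_zero]

/-- the elements that are scalar modulo `l ^ k` -/
def Sc {H : Type*} [Group H] [Finite H] (l n k : ℕ)
    (ρ : H →* (Matrix (Fin 2) (Fin 2) (ZMod (l ^ n)))ˣ) : Subgroup H :=
  let M : Submonoid H :=
    { carrier := {g | SK l n k (ρ g : Matrix (Fin 2) (Fin 2) (ZMod (l ^ n)))}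
      one_mem' := by
        show SK l n k _
        rw [map_one, Units.val_one]
        exact SK.one l n k
      mul_mem' := fun {a b} ha hb => by
        show SK l n k _
        rw [map_mul, Units.val_mul]
        exact SK.mul ha hb }
  { M with
    inv_mem' := fun {g} hg => by
      have h1 : g⁻¹ ∈ Submonoid.powers g := by
        rw [mem_powers_iff_mem_zpowers]
        exact Subgroup.inv_mem _ (Subgroup.mem_zpowers g)
      obtain ⟨j, hj⟩ := h1
      show g⁻¹ ∈ M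
      rw [← hj]
      exact M.pow_mem hg j }

theorem mem_Sc {H : Type*} [Group H] [Finite H] {l n k : ℕ}
    {ρ : H →* (Matrix (Fin 2) (Fin 2) (ZMod (l ^ n)))ˣ} {g : H} :
    g ∈ Sc l n k ρ ↔ SK l n k (ρ g : Matrix (Fin 2) (Fin 2) (ZMod (l ^ n))) := Iff.rfl

theorem Sc_normal {H : Type*} [Group H] [Finite H] {l n k : ℕ}
    (ρ : H →* (Matrix (Fin 2) (Fin 2) (ZMod (l ^ n)))ˣ) : (Sc l n k ρ).Normal := by
  refine ⟨fun h hh g => ?_⟩
  rw [mem_Sc] at hh ⊢
  obtain ⟨s, hs⟩ := hh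
  refine ⟨s, ?_⟩
  have e : ((ρ (g * h * g⁻¹) : (Matrix (Fin 2) (Fin 2) (ZMod (l ^ n)))ˣ) :
      Matrix (Fin 2) (Fin 2) (ZMod (l ^ n))) - s • (1 : Matrix (Fin 2) (Fin 2) (ZMod (l ^ n))) =
      (ρ g : Matrix (Fin 2) (Fin 2) (ZMod (l ^ n))) *
        ((ρ h : Matrix (Fin 2) (Fin 2) (ZMod (l ^ n))) -
          s • (1 : Matrix (Fin 2) (Fin 2) (ZMod (l ^ n)))) *
        ((ρ g)⁻¹ : (Matrix (Fin 2) (Fin 2) (ZMod (l ^ n)))ˣ) := by
    rw [map_mul, map_mul, map_inv, Units.val_mul, Units.val_mul, mul_sub, sub_mul,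
      mul_smul_comm, mul_one, smul_mul_assoc, Units.mul_inv]
  rw [e, ← smul_mul_assoc, ← mul_smul_comm, hs, mul_zero, zero_mul]

/-- elements with scalar powers prime to `l` -/
theorem ns_of_pow (hl : l.Prime) {k : ℕ} {m : ℕ} (hm : m.Coprime l)
    (y : (Matrix (Fin 2) (Fin 2) (ZMod (l ^ (2 * k))))ˣ)
    (hy : ¬ SK l (2 * k) k (y : Matrix (Fin 2) (Fin 2) (ZMod (l ^ (2 * k)))))
    (hym : SK l (2 * k) k ((y : Matrix (Fin 2) (Fin 2) (ZMod (l ^ (2 * k)))) ^ m)) :
    ¬ SC (l : ZMod (l ^ (2 * k))) (y : Matrix (Fin 2) (Fin 2) (ZMod (l ^ (2 * k)))) := by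
  obtain ⟨a, ha, s, x, hx, hns⟩ := decomp (l : ZMod (l ^ (2 * k))) (2 * k)
    (y : Matrix (Fin 2) (Fin 2) (ZMod (l ^ (2 * k))))
  have hak : a < k := by
    by_contra hak
    push Not at hak
    apply hy
    refine ⟨s, ?_⟩
    rw [hx, add_sub_cancel_left, smul_smul, ← pow_add]
    have : k + a = 2 * k + (a - k) := by omega
    rw [this, pow_add, zm_pow, zero_mul, zero_smul]
  have hns' := hns (by omega)
  rcases Nat.eq_zero_or_pos a with h0 | h0
  · subst h0
    rintro ⟨h1, h2, h3⟩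
    apply hns'
    rw [hx] at h1 h2 h3
    refine ⟨?_, ?_, ?_⟩
    · simpa using h1
    · simpa using h2
    · simpa using h3
  · exfalso
    obtain ⟨α, β, hpow⟩ := pow_lin x s ((l : ZMod (l ^ (2 * k))) ^ a) m
    obtain ⟨z, hz⟩ := hym
    rw [hx, hpow] at hz
    set w := (m : ZMod (l ^ (2 * k))) * s ^ (m - 1) + (l : ZMod (l ^ (2 * k))) ^ a * β with hw
    -- `s` is a unit
    have hdet : IsUnit (y : Matrix (Fin 2) (Fin 2) (ZMod (l ^ (2 * k)))).det :=
      (Matrix.isUnit_iff_isUnit_det _).1 y.isUnit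
    have hdet2 : (y : Matrix (Fin 2) (Fin 2) (ZMod (l ^ (2 * k)))).det = s * s +
        (l : ZMod (l ^ (2 * k))) ^ a * (s * x 0 0 + s * x 1 1 + (l : ZMod (l ^ (2 * k))) ^ a *
          (x 0 0 * x 1 1 - x 0 1 * x 1 0)) := by
      rw [hx, Matrix.det_fin_two]
      simp
      ring
    have hs : IsUnit s := by
      rw [hdet2] at hdet
      have h1 := (zm_nil (l := l) (n := 2 * k) h0 (s * x 0 0 + s * x 1 1 +
        (l : ZMod (l ^ (2 * k))) ^ a *
          (x 0 0 * x 1 1 - x 0 1 * x 1 0))).neg.isUnit_add_left_of_commute hdet (Commute.all _ _)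
      rw [add_neg_cancel_right] at h1
      exact isUnit_of_mul_isUnit_left h1
    have hmu : IsUnit (m : ZMod (l ^ (2 * k))) := by
      rw [ZMod.isUnit_iff_coprime]
      exact hm.pow_right _
    have hwu : IsUnit w :=
      (zm_nil (l := l) (n := 2 * k) h0 β).isUnit_add_left_of_commute
        (hmu.mul (hs.pow _)) (Commute.all _ _)
    -- the entries
    have key : ∀ u : ZMod (l ^ (2 * k)),
        (l : ZMod (l ^ (2 * k))) ^ k * ((l : ZMod (l ^ (2 * k))) ^ a * w * u) = 0 →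
        (l : ZMod (l ^ (2 * k))) ∣ u := by
      intro u hu
      have h1 : (l : ZMod (l ^ (2 * k))) ^ (k + a) * (w * u) = 0 := by
        rw [pow_add]
        linear_combination hu
      obtain ⟨v, hv⟩ := zm_dvd hl (by omega) h1
      obtain ⟨w', hw'⟩ := hwu
      refine ⟨↑w'⁻¹ * v, ?_⟩
      have h2 : (↑w'⁻¹ : ZMod (l ^ (2 * k))) * w = 1 := by rw [← hw']; exact w'.inv_mul
      linear_combination (↑w'⁻¹ : ZMod (l ^ (2 * k))) * hv - u * h2
    apply hns'
    have e01 := congrFun (congrFun hz 0) 1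
    have e10 := congrFun (congrFun hz 1) 0
    have e00 := congrFun (congrFun hz 0) 0
    have e11 := congrFun (congrFun hz 1) 1
    simp only [Matrix.smul_apply, Matrix.sub_apply, Matrix.add_apply, smul_eq_mul,
      Matrix.one_apply_eq, Matrix.one_apply_ne (show (0 : Fin 2) ≠ 1 by decide),
      Matrix.one_apply_ne (show (1 : Fin 2) ≠ 0 by decide), Matrix.zero_apply, mul_zero, mul_one,
      zero_add, sub_zero] at e01 e10 e00 e11
    exact ⟨key _ e01, key _ e10, key _ (by linear_combination e00 - e11)⟩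

/-- case of an element whose image is central modulo the scalars -/
theorem case_h {l k : ℕ} {H : Type*} [Group H] [Finite H]
    (ρ : H →* (Matrix (Fin 2) (Fin 2) (ZMod (l ^ (2 * k))))ˣ) {h : H}
    (hc : ∀ g : H, g * h * g⁻¹ * h⁻¹ ∈ Sc l (2 * k) k ρ) (g : H) :
    ∃ α β : ZMod (l ^ (2 * k)), (l : ZMod (l ^ (2 * k))) ^ k •
      ((ρ g : Matrix (Fin 2) (Fin 2) (ZMod (l ^ (2 * k)))) * (ρ h : Matrix _ _ _) -
        (α • (1 : Matrix (Fin 2) (Fin 2) (ZMod (l ^ (2 * k)))) + β • (ρ h : Matrix _ _ _)) *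
          (ρ g : Matrix _ _ _)) = 0 := by
  obtain ⟨s, hs⟩ := mem_Sc.1 (hc g)
  refine ⟨0, s, ?_⟩
  have e1 : g * h = (g * h * g⁻¹ * h⁻¹) * h * g := by group
  have e2 : (ρ g : Matrix (Fin 2) (Fin 2) (ZMod (l ^ (2 * k)))) * (ρ h : Matrix _ _ _) =
      (ρ (g * h * g⁻¹ * h⁻¹) : Matrix _ _ _) * (ρ h : Matrix _ _ _) * (ρ g : Matrix _ _ _) := by
    rw [← Units.val_mul, ← map_mul, e1, map_mul, map_mul, Units.val_mul, Units.val_mul]
    congr 3
    group
  have e3 : (ρ g : Matrix (Fin 2) (Fin 2) (ZMod (l ^ (2 * k)))) * (ρ h : Matrix _ _ _) -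
        ((0 : ZMod (l ^ (2 * k))) • (1 : Matrix (Fin 2) (Fin 2) (ZMod (l ^ (2 * k)))) +
          s • (ρ h : Matrix _ _ _)) * (ρ g : Matrix _ _ _) =
      ((ρ (g * h * g⁻¹ * h⁻¹) : Matrix (Fin 2) (Fin 2) (ZMod (l ^ (2 * k)))) -
        s • (1 : Matrix (Fin 2) (Fin 2) (ZMod (l ^ (2 * k))))) * ((ρ h : Matrix _ _ _) *
          (ρ g : Matrix _ _ _)) := by
    rw [e2, sub_mul, smul_mul_assoc, one_mul, zero_smul, zero_add, smul_mul_assoc, mul_assoc]
  rw [e3, ← smul_mul_assoc, hs, zero_mul]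

/-- **Two-dimensional representations of hyperelementary groups.** -/
theorem main_H {l k p : ℕ} (hl : l.Prime) (hp : p.Prime) (hk : 1 ≤ k) (hlp : l ≠ p ∨ k = 1)
    {H : Type*} [Group H] [Finite H] (C : Subgroup H) (hC : C.Normal) (hcyc : IsCyclic C)
    (hidx : ∃ m, C.index = p ^ m) (ρ : H →* (Matrix (Fin 2) (Fin 2) (ZMod (l ^ (2 * k))))ˣ) :
    ∃ x : Matrix (Fin 2) (Fin 2) (ZMod (l ^ (2 * k))), ¬ SC (l : ZMod (l ^ (2 * k))) x ∧
      ∀ g : H, ∃ α β : ZMod (l ^ (2 * k)), (l : ZMod (l ^ (2 * k))) ^ k •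
        ((ρ g : Matrix (Fin 2) (Fin 2) (ZMod (l ^ (2 * k)))) * x -
          (α • (1 : Matrix (Fin 2) (Fin 2) (ZMod (l ^ (2 * k)))) + β • x) *
            (ρ g : Matrix _ _ _)) = 0 := by
  classical
  obtain ⟨c0, hc0⟩ := hcyc.exists_generator
  obtain ⟨c, hc⟩ : ∃ c : H, c = (c0 : H) := ⟨_, rfl⟩
  have hgen : ∀ y ∈ C, ∃ j : ℕ, y = c ^ j := by
    intro y hy
    have h1 := hc0 ⟨y, hy⟩
    rw [← mem_powers_iff_mem_zpowers] at h1
    obtain ⟨j, hj⟩ := h1
    exact ⟨j, by rw [hc, ← Subgroup.coe_pow]; exact (congrArg Subtype.val hj).symm⟩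
  obtain ⟨a, ha, s, x, hx, hns⟩ := decomp (l : ZMod (l ^ (2 * k))) (2 * k)
    (ρ c : Matrix (Fin 2) (Fin 2) (ZMod (l ^ (2 * k))))
  by_cases hak : a < k
  · refine ⟨x, hns (by omega), fun g => ?_⟩
    obtain ⟨j, hj⟩ := hgen (g * c * g⁻¹) (hC.conj_mem c (hc ▸ c0.2) g)
    have h1 : (ρ g : Matrix (Fin 2) (Fin 2) (ZMod (l ^ (2 * k)))) *
        (s • (1 : Matrix (Fin 2) (Fin 2) (ZMod (l ^ (2 * k)))) +
          (l : ZMod (l ^ (2 * k))) ^ a • x) =
        (s • (1 : Matrix (Fin 2) (Fin 2) (ZMod (l ^ (2 * k)))) +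
          (l : ZMod (l ^ (2 * k))) ^ a • x) ^ j * (ρ g : Matrix _ _ _) := by
      rw [← hx, ← Units.val_pow_eq_pow_val, ← map_pow, ← hj, ← Units.val_mul, ← Units.val_mul,
        ← map_mul, ← map_mul]
      congr 2
      group
    obtain ⟨α, β, h2⟩ := conj_lin (Units.mul_inv (ρ g)) h1
    refine ⟨α, β, ?_⟩
    obtain ⟨b, hb⟩ : ∃ b, k = b + a := ⟨k - a, by omega⟩
    have h3 : (l : ZMod (l ^ (2 * k))) ^ k =
        (l : ZMod (l ^ (2 * k))) ^ b * (l : ZMod (l ^ (2 * k))) ^ a := by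
      rw [← pow_add, ← hb]
    rw [h3, mul_smul, h2, smul_zero]
  · push Not at hak
    have hcS : c ∈ Sc l (2 * k) k ρ := by
      rw [mem_Sc]
      refine ⟨s, ?_⟩
      rw [hx, add_sub_cancel_left, smul_smul, ← pow_add]
      have : k + a = 2 * k + (a - k) := by omega
      rw [this, pow_add, zm_pow, zero_mul, zero_smul]
    have hCS : C ≤ Sc l (2 * k) k ρ := by
      intro y hy
      obtain ⟨j, rfl⟩ := hgen y hy
      exact Subgroup.pow_mem _ hcS j
    have hN := Sc_normal (k := k) ρ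
    by_cases htop : Sc l (2 * k) k ρ = ⊤
    · refine ⟨!![0, 1; 0, 0], ?_, fun g => ?_⟩
      · rintro ⟨h1, -, -⟩
        have h2 : IsUnit (l : ZMod (l ^ (2 * k))) := by
          apply isUnit_of_dvd_one
          simpa using h1
        have h3 := h2.pow (2 * k)
        rw [zm_pow] at h3
        have h4 : Nontrivial (ZMod (l ^ (2 * k))) := by
          rw [ZMod.nontrivial_iff]
          intro h5
          have h6 : 1 < l ^ (2 * k) := Nat.one_lt_pow (by omega) hl.one_lt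
          omega
        exact not_isUnit_zero h3
      · have hg : g ∈ Sc l (2 * k) k ρ := by rw [htop]; trivial
        obtain ⟨s', hs'⟩ := mem_Sc.1 hg
        refine ⟨0, 1, ?_⟩
        set n0 : Matrix (Fin 2) (Fin 2) (ZMod (l ^ (2 * k))) := !![0, 1; 0, 0] with hn0
        have e : (ρ g : Matrix (Fin 2) (Fin 2) (ZMod (l ^ (2 * k)))) * n0 -
            ((0 : ZMod (l ^ (2 * k))) • (1 : Matrix (Fin 2) (Fin 2) (ZMod (l ^ (2 * k)))) +
              (1 : ZMod (l ^ (2 * k))) • n0) * (ρ g : Matrix _ _ _) =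
            ((ρ g : Matrix (Fin 2) (Fin 2) (ZMod (l ^ (2 * k)))) -
              s' • (1 : Matrix (Fin 2) (Fin 2) (ZMod (l ^ (2 * k))))) * n0 -
            n0 * ((ρ g : Matrix (Fin 2) (Fin 2) (ZMod (l ^ (2 * k)))) -
              s' • (1 : Matrix (Fin 2) (Fin 2) (ZMod (l ^ (2 * k))))) := by
          rw [sub_mul, mul_sub, smul_mul_assoc, mul_smul_comm, one_mul, mul_one, zero_smul,
            zero_add, one_smul]
          abel
        rw [e, smul_sub, ← smul_mul_assoc, ← mul_smul_comm, hs', zero_mul, mul_zero, sub_zero]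
    · -- the quotient is a `p`-group
      have hpow : ∀ g : H, ∃ r : ℕ, g ^ (p ^ r) ∈ Sc l (2 * k) k ρ := by
        intro g
        obtain ⟨m, hm⟩ := hidx
        refine ⟨m, hCS ?_⟩
        rw [← hm]
        exact Subgroup.pow_index_mem C g
      have hpg : IsPGroup p (H ⧸ Sc l (2 * k) k ρ) := by
        intro q
        induction q using QuotientGroup.induction_on with
        | H g =>
          obtain ⟨r, hr⟩ := hpow g
          refine ⟨r, ?_⟩
          rw [← QuotientGroup.mk_pow]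
          exact (QuotientGroup.eq_one_iff _).2 hr
      have hnt : Nontrivial (H ⧸ Sc l (2 * k) k ρ) := by
        rw [QuotientGroup.nontrivial_iff]
        exact htop
      have _ : Fact p.Prime := ⟨hp⟩
      have hcen := hpg.center_nontrivial
      obtain ⟨z, hz⟩ := exists_ne (1 : Subgroup.center (H ⧸ Sc l (2 * k) k ρ))
      obtain ⟨h, hh⟩ := QuotientGroup.mk_surjective (z : H ⧸ Sc l (2 * k) k ρ)
      have hnot : h ∉ Sc l (2 * k) k ρ := by
        intro h1
        apply hz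
        apply Subtype.ext
        rw [← hh]
        exact (QuotientGroup.eq_one_iff _).2 h1
      have hcomm : ∀ g : H, g * h * g⁻¹ * h⁻¹ ∈ Sc l (2 * k) k ρ := by
        intro g
        rw [← QuotientGroup.eq_one_iff]
        have h1 := Subgroup.mem_center_iff.1 z.2 (g : H ⧸ Sc l (2 * k) k ρ)
        rw [← hh] at h1
        rw [QuotientGroup.mk_mul, QuotientGroup.mk_mul, QuotientGroup.mk_mul, h1,
          QuotientGroup.mk_inv, QuotientGroup.mk_inv]
        group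
      refine ⟨(ρ h : Matrix _ _ _), ?_, case_h ρ hcomm⟩
      rcases hlp with hlp | hlp
      · obtain ⟨r, hr⟩ := hpow h
        refine ns_of_pow hl (m := p ^ r) ?_ (ρ h) hnot ?_
        · exact (((Nat.coprime_primes hp hl).2 hlp.symm)).pow_left r
        · have := mem_Sc.1 hr
          rwa [map_pow, Units.val_pow_eq_pow_val] at this
      · obtain ⟨a', ha', s', x', hx', hns'⟩ := decomp (l : ZMod (l ^ (2 * k))) (2 * k)
          (ρ h : Matrix (Fin 2) (Fin 2) (ZMod (l ^ (2 * k))))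
        have ha0 : a' = 0 := by
          by_contra h0
          apply hnot
          rw [mem_Sc]
          refine ⟨s', ?_⟩
          rw [hx', add_sub_cancel_left, smul_smul, ← pow_add]
          have : k + a' = 2 * k + (a' - k) := by omega
          rw [this, pow_add, zm_pow, zero_mul, zero_smul]
        subst ha0
        have h5 := hns' (by omega)
        rintro ⟨h1, h2, h3⟩
        apply h5
        rw [hx'] at h1 h2 h3
        refine ⟨?_, ?_, ?_⟩
        · simpa using h1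
        · simpa using h2
        · simpa using h3

end main

end Pool.Agent.H453.CM
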