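import Mathlib

/-!
# Two by two matrices and hyperelementary groups
-/

set_option autoImplicit false

namespace Pool.Agent.H453.CM

open Matrix

section gen
variable {R : Type*} [CommRing R]

theorem sq_eq (x : Matrix (Fin 2) (Fin 2) R) : x * x = x.trace • x - x.det • 1 := by
  ext i j
  fin_cases i <;> fin_cases j <;>
    simp [Matrix.mul_apply, Fin.sum_univ_two, Matrix.trace, Matrix.det_fin_two] <;> ring

/-- powers of `s + t x` -/
theorem pow_lin (x : Matrix (Fin 2) (Fin 2) R) (s t : R) (j : ℕ) : ∃ α β : R,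
    (s • (1 : Matrix (Fin 2) (Fin 2) R) + t • x) ^ j =
      (s ^ j + t * α) • (1 : Matrix (Fin 2) (Fin 2) R) +
        (t * ((j : R) * s ^ (j - 1) + t * β)) • x := by
  induction j with
  | zero => exact ⟨0, 0, by simp⟩
  | succ j ih =>
    obtain ⟨α, β, h⟩ := ih
    refine ⟨α * s - t * ((j : R) * s ^ (j - 1) + t * β) * x.det,
      β * s + α + ((j : R) * s ^ (j - 1) + t * β) * x.trace, ?_⟩
    rw [pow_succ, h]
    have e : ((s ^ j + t * α) • (1 : Matrix (Fin 2) (Fin 2) R) +
        (t * ((j : R) * s ^ (j - 1) + t * β)) • x) * (s • (1 : Matrix (Fin 2) (Fin 2) R) + t • x) =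
        ((s ^ j + t * α) * s) • (1 : Matrix (Fin 2) (Fin 2) R) +
          ((s ^ j + t * α) * t + (t * ((j : R) * s ^ (j - 1) + t * β)) * s) • x +
          ((t * ((j : R) * s ^ (j - 1) + t * β)) * t) • (x * x) := by
      simp only [add_mul, mul_add, smul_mul_smul_comm, one_mul, mul_one, add_smul]
      abel
    rw [e, sq_eq]
    have hj : (j : R) * s ^ (j - 1) * s = (j : R) * s ^ j := by
      rcases j with _ | j
      · simp
      · rw [Nat.add_sub_cancel, mul_assoc, ← pow_succ]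
    have hj2 : ((j + 1 : ℕ) : R) * s ^ (j + 1 - 1) = s ^ j + (j : R) * s ^ (j - 1) * s := by
      rw [hj, Nat.add_sub_cancel]; push_cast; ring
    rw [hj2]
    module

/-- `x` is a scalar modulo `l` -/
def SC (l : R) (x : Matrix (Fin 2) (Fin 2) R) : Prop := l ∣ x 0 1 ∧ l ∣ x 1 0 ∧ l ∣ x 0 0 - x 1 1

/-- decomposition -/
theorem decomp (l : R) (n : ℕ) (c : Matrix (Fin 2) (Fin 2) R) : ∃ a ≤ n, ∃ (s : R)
    (x : Matrix (Fin 2) (Fin 2) R), c = s • (1 : Matrix (Fin 2) (Fin 2) R) + l ^ a • x ∧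
      (a < n → ¬ SC l x) := by
  classical
  let P : ℕ → Prop := fun a => ∃ (s : R) (x : Matrix (Fin 2) (Fin 2) R),
    c = s • (1 : Matrix (Fin 2) (Fin 2) R) + l ^ a • x
  have h0 : P 0 := ⟨0, c, by simp⟩
  have h1 : P (Nat.findGreatest P n) := Nat.findGreatest_spec (Nat.zero_le n) h0
  obtain ⟨s, x, h⟩ := h1
  refine ⟨Nat.findGreatest P n, Nat.findGreatest_le n, s, x, h, fun hlt hSC => ?_⟩
  obtain ⟨⟨y01, h01⟩, ⟨y10, h10⟩, ⟨y00, h00⟩⟩ := hSC
  refine Nat.findGreatest_is_greatest (P := P) (Nat.lt_succ_self _) hlt ?_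
  refine ⟨s + l ^ (Nat.findGreatest P n) * x 1 1, !![y00, y01; y10, 0], ?_⟩
  rw [h]
  ext i j
  fin_cases i <;> fin_cases j
  · simp only [Matrix.add_apply, Matrix.smul_apply, Fin.zero_eta, Fin.isValue, smul_eq_mul,
      Matrix.one_apply_eq, Matrix.of_apply, Matrix.cons_val', Matrix.cons_val_zero,
      Matrix.cons_val_fin_one, pow_succ]
    linear_combination (l ^ (Nat.findGreatest P n)) * h00
  · simp [pow_succ]
    linear_combination (l ^ (Nat.findGreatest P n)) * h01
  · simp [pow_succ]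
    linear_combination (l ^ (Nat.findGreatest P n)) * h10
  · simp

/-- conjugation -/
theorem conj_lin {s t : R} {x g g' : Matrix (Fin 2) (Fin 2) R} (hg : g * g' = 1) {j : ℕ}
    (h : g * (s • (1 : Matrix (Fin 2) (Fin 2) R) + t • x) =
      (s • (1 : Matrix (Fin 2) (Fin 2) R) + t • x) ^ j * g) :
    ∃ α β : R, t • (g * x - (α • (1 : Matrix (Fin 2) (Fin 2) R) + β • x) * g) = 0 := by
  obtain ⟨α, β, e⟩ := pow_lin x s t j
  rw [e] at h
  set β' := (j : R) * s ^ (j - 1) + t * β with hβ'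
  have h2 : t • (g * x * g') = (s ^ j - s) • (1 : Matrix (Fin 2) (Fin 2) R) +
      t • (α • (1 : Matrix (Fin 2) (Fin 2) R) + β' • x) := by
    have h3 := congrArg (· * g') h
    simp only [mul_add, add_mul, mul_smul_comm, smul_mul_assoc, mul_one, one_mul] at h3
    rw [hg, mul_assoc x g g', hg, mul_one] at h3
    have h4 : t • (g * x * g') = ((s ^ j + t * α) • (1 : Matrix (Fin 2) (Fin 2) R) +
      (t * β') • x) - s • (1 : Matrix (Fin 2) (Fin 2) R) := by
      rw [← h3]; abel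
    rw [h4]
    module
  have h5 : s ^ j - s = t * ((g * x * g') 0 0 - (α + β' * x 0 0)) := by
    have h6 := congrFun (congrFun h2 0) 0
    simp only [Matrix.add_apply, Matrix.smul_apply, smul_eq_mul, Matrix.one_apply_eq, mul_one]
      at h6
    linear_combination -h6
  refine ⟨(g * x * g') 0 0 - (α + β' * x 0 0) + α, β', ?_⟩
  have hg' : g' * g = 1 := by rwa [mul_eq_one_comm]
  have h7 : t • (g * x) = t • (g * x * g') * g := by
    rw [smul_mul_assoc, mul_assoc (g * x) g' g, hg', mul_one]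
  rw [smul_sub, h7, h2, h5, ← smul_mul_assoc, ← sub_mul]
  have h8 : (t * ((g * x * g') 0 0 - (α + β' * x 0 0))) • (1 : Matrix (Fin 2) (Fin 2) R) +
      t • (α • (1 : Matrix (Fin 2) (Fin 2) R) + β' • x) -
      t • (((g * x * g') 0 0 - (α + β' * x 0 0) + α) • (1 : Matrix (Fin 2) (Fin 2) R) +
        β' • x) = 0 := by
    module
  rw [h8, zero_mul]

end gen

end Pool.Agent.H453.CM
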